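import Pool.Agent.H12.IT.Fin

set_option autoImplicit false

/-! An algorithm that computes the intertwining class of a polynomial with algebraic coefficients. -/

open Polynomial H12IT

namespace Pool.Agent.Results.MP_d9b15a_an.IntertwiningAlgorithm

/-- There is a partial recursive function `f` that takes an integer `d` and a code `L` of a
polynomial with algebraic coefficients and that, for every `d ≥ 2` and every code `L` of a polynomial
`P` of degree `d`, is defined at `(d, L)` and returns there a finite list of codes of polynomials;
the polynomials coded by the list are exactly the monic centered polynomials `Q ∈ ℂ[X]` of degree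
`d` that are intertwined with `P`. Every polynomial with algebraic coefficients has a code. -/
theorem result :
    (∃ f : ℕ × List H12IT.Num →. List (List H12IT.Num), Partrec f ∧
      ∀ (d : ℕ) (L : List H12IT.Num) (P : ℂ[X]), 2 ≤ d → P.natDegree = d → RepPoly L P →
        ∃ out ∈ f (d, L), (∀ l ∈ out, ∃ Q : ℂ[X], RepPoly l Q) ∧
          {Q : ℂ[X] | MC d Q ∧ Inter P Q} = {Q | ∃ l ∈ out, RepPoly l Q}) ∧
    ∀ P : ℂ[X], (∀ j, IsAlgebraic ℚ (P.coeff j)) → ∃ L : List H12IT.Num, RepPoly L P :=
  ⟨algorithm, fun _ h => codes_exist h⟩

end Pool.Agent.Results.MP_d9b15a_an.IntertwiningAlgorithm
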