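import Pool.Agent.H12.IT.Opd

set_option autoImplicit false

/-! The optimal number of iterates in the definition of intertwined polynomials. -/

open Polynomial H12IT

namespace Pool.Agent.Results.MP_d9b15a_an.OptimalExponent

/-- Let `d ≥ 3`. If `P` of degree `d` and `Q` are intertwined then for some `1 ≤ n ≤ d - 1` the
iterates `P^n`, `Q^n` have a common `R ≥ P^n, Q^n`, with semiconjugacies of degree at most
`4 d^(3d+2)`. There are intertwined `P, Q` of degree `d` for which `P^n` and `Q^n` have no common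
`R` unless `d - 1` divides `n`. -/
theorem result (d : ℕ) (hd : 3 ≤ d) :
    (∀ P Q : ℂ[X], P.natDegree = d → Inter P Q → ∃ (n : ℕ) (R p1 p2 : ℂ[X]), 1 ≤ n ∧ n ≤ d - 1 ∧
      1 ≤ p1.natDegree ∧ p1.natDegree ≤ 4 * d ^ (3 * d + 2) ∧
      1 ≤ p2.natDegree ∧ p2.natDegree ≤ 4 * d ^ (3 * d + 2) ∧
      p1.comp R = (it P n).comp p1 ∧ p2.comp R = (it Q n).comp p2) ∧
    ∃ P Q : ℂ[X], P.natDegree = d ∧ Q.natDegree = d ∧ Inter P Q ∧
      ∀ (n : ℕ) (R : ℂ[X]), 1 ≤ n → Geq R (it P n) → Geq R (it Q n) → d - 1 ∣ n := by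
  refine ⟨fun P Q hP h => ?_, opt_lower hd⟩
  obtain ⟨n, R, p1, p2, ⟨hn, h1, h2, e1, e2⟩, hn', k1, k2⟩ := opt_upper (hP ▸ hd) h
  have hk : P.natDegree * K2 P.natDegree = 4 * d ^ (3 * d + 2) := by
    rw [hP]
    unfold K2
    ring
  exact ⟨n, R, p1, p2, hn, hP ▸ hn', h1, hk ▸ k1, h2, hk ▸ k2, e1, e2⟩

end Pool.Agent.Results.MP_d9b15a_an.OptimalExponent
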